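import Pool.Agent.Helper65.IC.St

/-! Project IC (MP_1bacb5_al), module SP: three conjugates between `A` and `a A a⁻¹`. -/

set_option autoImplicit false

universe u

namespace Pool.Agent.Helper36.IC

open Subgroup Pool.Agent.Helper58.RK Pool.Agent.Helper65.IC

section

variable {G : Type u} [Group G]

theorem mem_cj {g x : G} {C : Subgroup G} : x ∈ cj g C ↔ g⁻¹ * x * g ∈ C := by
  unfold cj
  rw [Subgroup.mem_map]
  constructor
  · rintro ⟨y, hy, rfl⟩
    have : g⁻¹ * ((MulAut.conj g).toMonoidHom y) * g = y := by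
      simp [MulAut.conj_apply, mul_assoc]
    rw [this]; exact hy
  · intro h
    refine ⟨g⁻¹ * x * g, h, ?_⟩
    simp [MulAut.conj_apply, mul_assoc]

theorem cj_mul (g h : G) (C : Subgroup G) : cj (g * h) C = cj g (cj h C) := by
  ext x
  rw [mem_cj, mem_cj, mem_cj]
  have : (g * h)⁻¹ * x * (g * h) = h⁻¹ * (g⁻¹ * x * g) * h := by group
  rw [this]

theorem cj_one (C : Subgroup G) : cj 1 C = C := by
  ext x
  rw [mem_cj]
  simp

theorem cj_mono (g : G) {C D : Subgroup G} (h : C ≤ D) : cj g C ≤ cj g D := by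
  intro x hx
  rw [mem_cj] at hx ⊢
  exact h hx

theorem cj_le_iff (g : G) {C D : Subgroup G} : cj g C ≤ cj g D ↔ C ≤ D := by
  constructor
  · intro h
    have := cj_mono g⁻¹ h
    rw [← cj_mul, ← cj_mul, inv_mul_cancel, cj_one, cj_one] at this
    exact this
  · exact cj_mono g

theorem cj_lt_iff (g : G) {C D : Subgroup G} : cj g C < cj g D ↔ C < D := by
  rw [lt_iff_le_not_ge, lt_iff_le_not_ge, cj_le_iff, cj_le_iff]

theorem cj_self {c : G} {C : Subgroup G} (h : c ∈ C) : cj c C = C := by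
  ext x
  rw [mem_cj]
  constructor
  · intro hx
    have h2 := C.mul_mem (C.mul_mem h hx) (C.inv_mem h)
    have : c * (c⁻¹ * x * c) * c⁻¹ = x := by group
    rwa [this] at h2
  · intro hx
    exact C.mul_mem (C.mul_mem (C.inv_mem h) hx) h

/-- the conjugates by powers are strictly increasing -/
theorem strictMono_zpow {a : G} {A : Subgroup G} (h : A < cj a A) :
    StrictMono (fun k : ℤ => cj (a ^ k) A) := by
  apply strictMono_int_of_lt_succ
  intro k
  show cj (a ^ k) A < cj (a ^ (k + 1)) A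
  rw [zpow_add_one, cj_mul, cj_lt_iff]
  exact h

theorem main_pos (S : Set (Subgroup G)) (hS : IChain S) (A : Subgroup G) (hA : A ∈ S) (a : G)
    (ha : A < cj a A) (c : G) (I : Subgroup G) (hI : I ∈ S) (m n : ℤ) (hm : cj (a ^ m) A ≤ I)
    (hn : c ∈ cj (a ^ n) A) (hIn : I ≤ cj (a ^ n) A) (hc : I < cj c I) :
    ∃ (c' : G) (P : Subgroup G), P ∈ S ∧ A ≤ P ∧ P < cj c' P ∧ cj c' P < cj c' (cj c' P) ∧
      cj c' (cj c' P) ≤ cj a A := by
  classical
  have hmono := strictMono_zpow ha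
  -- the sequence
  have hps : ∀ t : ℕ, cj (c ^ t) I < cj (c ^ (t + 1)) I := by
    intro t
    rw [pow_succ, cj_mul, cj_lt_iff]
    exact hc
  have hpm : StrictMono (fun t : ℕ => cj (c ^ t) I) := strictMono_nat_of_lt_succ hps
  have hpS : ∀ t : ℕ, cj (c ^ t) I ∈ S := fun t => hS.inv _ _ hI
  have hAS : ∀ k : ℤ, cj (a ^ k) A ∈ S := fun k => hS.inv _ _ hA
  have hpn : ∀ t : ℕ, cj (c ^ t) I ≤ cj (a ^ n) A := by
    intro t
    have h1 : c ^ t ∈ cj (a ^ n) A := Subgroup.pow_mem _ hn t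
    calc cj (c ^ t) I ≤ cj (c ^ t) (cj (a ^ n) A) := cj_mono _ hIn
      _ = cj (a ^ n) A := cj_self h1
  -- greatest k
  obtain ⟨k, ⟨t₀, hk⟩, hmax⟩ := Int.exists_greatest_of_bdd
    (P := fun k : ℤ => ∃ t : ℕ, cj (a ^ k) A ≤ cj (c ^ t) I)
    ⟨n, by
      rintro z ⟨t, ht⟩
      exact hmono.le_iff_le.mp (le_trans ht (hpn t))⟩
    ⟨m, 0, by rw [pow_zero, cj_one]; exact hm⟩
  have hup : ∀ t : ℕ, cj (c ^ t) I ≤ cj (a ^ (k + 1)) A := by
    intro t
    rcases hS.chain _ (hpS t) _ (hAS (k + 1)) with h | h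
    · exact h
    · have := hmax (k + 1) ⟨t, h⟩
      omega
  have e1 : ∀ t : ℕ, cj (a ^ (-k) * c * a ^ k) (cj (a ^ (-k)) (cj (c ^ t) I))
      = cj (a ^ (-k)) (cj (c ^ (t + 1)) I) := by
    intro t
    rw [← cj_mul, ← cj_mul, ← cj_mul]
    congr 1
    rw [pow_succ']
    group
  refine ⟨a ^ (-k) * c * a ^ k, cj (a ^ (-k)) (cj (c ^ t₀) I), hS.inv _ _ (hpS _), ?_, ?_, ?_, ?_⟩
  · have h1 := cj_mono (a ^ (-k)) hk
    rw [← cj_mul, ← zpow_add, neg_add_cancel, zpow_zero, cj_one] at h1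
    exact h1
  · rw [e1, cj_lt_iff]
    exact hps t₀
  · rw [e1, e1, cj_lt_iff]
    exact hps (t₀ + 1)
  · rw [e1, e1]
    have h1 := cj_mono (a ^ (-k)) (hup (t₀ + 1 + 1))
    rw [← cj_mul (a ^ (-k)) (a ^ (k + 1)), ← zpow_add] at h1
    have h2 : -k + (k + 1) = 1 := by ring
    rw [h2, zpow_one] at h1
    exact h1

end

/-- SP (three conjugates between `A` and `a A a⁻¹`) -/
theorem pSP : StSP.{u} := by
  intro G _ S hS A hA a ha c I hI m n hm hn hne
  have hcI : c ∉ I := fun h => hne (cj_self h)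
  have hAn : cj (a ^ n) A ∈ S := hS.inv _ _ hA
  have hIn : I ≤ cj (a ^ n) A := by
    rcases hS.chain _ hI _ hAn with h | h
    · exact h
    · exact absurd (h hn) hcI
  rcases hS.chain _ hI _ (hS.inv c _ hI) with h | h
  · exact main_pos S hS A hA a ha c I hI m n hm hn hIn (lt_of_le_of_ne h (Ne.symm hne))
  · refine main_pos S hS A hA a ha c⁻¹ I hI m n hm (Subgroup.inv_mem _ hn) hIn ?_
    have h1 : cj c I < I := lt_of_le_of_ne h hne
    have h2 := (cj_lt_iff c⁻¹).mpr h1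
    rw [← cj_mul, inv_mul_cancel, cj_one] at h2
    exact h2

end Pool.Agent.Helper36.IC
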